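import Pool.Agent.Work.MP_3169d4_al.Main

/-!
# MP_3169d4_al: a simple group and a solvable group with the same order and totient sum

Let `psi(G)` be the sum over all `g` in `G` of `phi(|g|)`, where `phi` is Euler's totient and
`|g|` the order of `g`.  The simple group `SL(2, 512)` and a certain solvable group `H` both have
order `134217216 = 512 * (512 ^ 2 - 1)` and both have `psi = 40712668160`.
-/

set_option autoImplicit false

namespace Pool.Agent.Results.MP_3169d4_al.SolvablePartner

open Pool.Agent.Work.MP3169

/-- The special linear group of degree two over a field of characteristic two with more than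
three elements is simple. -/
theorem simple_SL2 {F : Type} [Field F] [CharP F 2] (hF : 4 ≤ Nat.card F) :
    IsSimpleGroup (Matrix.SpecialLinearGroup (Fin 2) F) := by
  have h1 : Subgroup.center (Matrix.SpecialLinearGroup (Fin 2) F) = ⊥ := by
    rw [Subgroup.eq_bot_iff_forall]
    intro A hA
    rw [Matrix.SpecialLinearGroup.mem_center_iff] at hA
    obtain ⟨r, hr, hrA⟩ := hA
    have h2 : r = 1 := by
      have h3 : (r - 1) * (r - 1) = 0 := by
        have h4 : (2 : F) = 0 := CharTwo.two_eq_zero
        have h5 : r ^ 2 = 1 := by simpa using hr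
        linear_combination h5 + (1 - r) * h4
      exact sub_eq_zero.1 (mul_self_eq_zero.1 h3)
    apply Matrix.SpecialLinearGroup.ext
    intro i j
    rw [← hrA, h2]
    simp
  have h2 := Matrix.ProjectiveSpecialLinearGroup.rank_two_simple hF
  have e : Matrix.ProjectiveSpecialLinearGroup (Fin 2) F ≃* Matrix.SpecialLinearGroup (Fin 2) F :=
    (QuotientGroup.quotientMulEquivOfEq h1).trans QuotientGroup.quotientBot
  exact MulEquiv.isSimpleGroup e.symm

/-- A ring isomorphism induces an isomorphism of special linear groups. -/
noncomputable def slEquivOfRing {R S : Type} [CommRing R] [CommRing S] (e : R ≃+* S) :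
    Matrix.SpecialLinearGroup (Fin 2) R ≃* Matrix.SpecialLinearGroup (Fin 2) S where
  toFun := Matrix.SpecialLinearGroup.map e.toRingHom
  invFun := Matrix.SpecialLinearGroup.map e.symm.toRingHom
  left_inv g := by
    apply Matrix.SpecialLinearGroup.ext
    intro i j
    simp [Matrix.SpecialLinearGroup.map_apply_coe]
  right_inv g := by
    apply Matrix.SpecialLinearGroup.ext
    intro i j
    simp [Matrix.SpecialLinearGroup.map_apply_coe]
  map_mul' a b := map_mul _ a b

theorem finsum_totient_congr {G K : Type} [Group G] [Group K] (e : G ≃* K) :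
    ∑ᶠ g : G, Nat.totient (orderOf g) = ∑ᶠ k : K, Nat.totient (orderOf k) := by
  rw [← finsum_comp_equiv e.toEquiv]
  apply finsum_congr
  intro g
  rw [MulEquiv.toEquiv_eq_coe, EquivLike.coe_coe, MulEquiv.orderOf_eq]

/-- A semidirect product of solvable groups is solvable. -/
theorem solvable_semi {N G : Type} [Group N] [Group G] (φ : G →* MulAut N)
    (hN : Group.IsSolvable N) (hG : Group.IsSolvable G) : Group.IsSolvable (N ⋊[φ] G) := by
  apply Group.isSolvable_of_ker_le_range (SemidirectProduct.inl : N →* N ⋊[φ] G)
    (SemidirectProduct.rightHom : N ⋊[φ] G →* G)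
  rw [SemidirectProduct.range_inl_eq_ker_rightHom]

theorem solvable_P : Group.IsSolvable P := by
  have : Fact (Nat.Prime 2) := ⟨Nat.prime_two⟩
  have h : IsPGroup 2 P := by
    apply IsPGroup.of_card (n := 9)
    rw [Nat.card_eq_fintype_card, P.card_P]
    norm_num
  have := h.isNilpotent
  infer_instance

theorem solvable_H4 : Group.IsSolvable H4 := by
  have hN : ∀ r : ℕ, Group.IsSolvable (NN r) := fun r => inferInstance
  have hL : Group.IsSolvable L := by
    have := solvable_P
    infer_instance
  exact solvable_semi _ (hN 7) (solvable_semi _ (hN 19) (solvable_semi _ (hN 73)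
    (solvable_semi _ (hN 3) hL)))

/-- The group `SL(2, 512)` is simple, has order `134217216` and totient sum `40712668160`, and
some finite solvable group has the same order and the same totient sum. -/
theorem result :
    (IsSimpleGroup (Matrix.SpecialLinearGroup (Fin 2) (GaloisField 2 9)) ∧
      Nat.card (Matrix.SpecialLinearGroup (Fin 2) (GaloisField 2 9)) = 134217216 ∧
      ∑ᶠ g : Matrix.SpecialLinearGroup (Fin 2) (GaloisField 2 9),
        Nat.totient (orderOf g) = 40712668160) ∧
    ∃ (H : Type) (_ : Group H), Finite H ∧ Group.IsSolvable H ∧ ¬ IsSimpleGroup H ∧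
      Nat.card H = 134217216 ∧ ∑ᶠ h : H, Nat.totient (orderOf h) = 40712668160 := by
  classical
  have : Fintype (GaloisField 2 18) := Fintype.ofFinite _
  have : Fintype (GaloisField 2 9) := Fintype.ofFinite _
  have hE : Fintype.card (GaloisField 2 18) = 262144 := by
    rw [← Nat.card_eq_fintype_card, GaloisField.card 2 18 (by norm_num)]
    norm_num
  have hE9 : Fintype.card (GaloisField 2 9) = 512 := by
    rw [← Nat.card_eq_fintype_card, GaloisField.card 2 9 (by norm_num)]
    norm_num
  have e0 : FF (GaloisField 2 18) ≃+* GaloisField 2 9 :=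
    FiniteField.ringEquivOfCardEq (by rw [card_FF hE, hE9])
  have e := slEquivOfRing e0
  refine ⟨⟨?_, ?_, ?_⟩, H4, inferInstance, inferInstance, solvable_H4, not_simple_H4,
    card_H4, ?_⟩
  · apply simple_SL2
    rw [Nat.card_eq_fintype_card, hE9]
    norm_num
  · rw [← Nat.card_congr e.toEquiv, Nat.card_eq_fintype_card, card_SL2 hE]
  · rw [← finsum_totient_congr e, finsum_eq_sum_of_fintype, sum_SL2 hE]
  · rw [finsum_eq_sum_of_fintype, sum_H4]

end Pool.Agent.Results.MP_3169d4_al.SolvablePartner
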